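import Pool.Agent.Helper68.ES.St5

/-! # ES module MKV -/

set_option autoImplicit false

open MeasureTheory Set Filter Topology
open scoped ENNReal RealInnerProductSpace

namespace Pool.Agent.Helper29.ES

open Pool.Agent.Helper68.LM (Pl BB Bd Av HL ft fm DQ)

/-- Markov for outer measures. -/
theorem hMKV : Pool.Agent.Helper68.ES.StMKV := by
  intro ι _ B n hn
  set N : Pl → ℝ≥0∞ := fun x => ∑' i : ι, (toMeasurable volume (B i)).indicator 1 x with hN
  have hmeas : Measurable N := by
    refine Measurable.ennreal_tsum (fun i => ?_)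
    exact measurable_one.indicator (measurableSet_toMeasurable _ _)
  have hint : ∫⁻ x, N x = ∑' i : ι, volume (B i) := by
    rw [hN, lintegral_tsum (fun i =>
      (measurable_one.indicator (measurableSet_toMeasurable _ _)).aemeasurable)]
    refine tsum_congr (fun i => ?_)
    rw [lintegral_indicator_one (measurableSet_toMeasurable _ _), measure_toMeasurable]
  have hsub : {x : Pl | ∃ V : Finset ι, (∀ i ∈ V, x ∈ B i) ∧ n ≤ (V.card : ℝ)} ⊆
      {x | ENNReal.ofReal n ≤ N x} := by
    rintro x ⟨V, hV, hc⟩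
    change ENNReal.ofReal n ≤ N x
    calc ENNReal.ofReal n ≤ ENNReal.ofReal (V.card : ℝ) := ENNReal.ofReal_le_ofReal hc
      _ = (V.card : ℝ≥0∞) := by rw [ENNReal.ofReal_natCast]
      _ = ∑ i ∈ V, (toMeasurable volume (B i)).indicator 1 x := by
          rw [Finset.sum_congr rfl (fun i hi => by
            rw [indicator_of_mem (subset_toMeasurable _ _ (hV i hi))]
            rfl : ∀ i ∈ V, (toMeasurable volume (B i)).indicator (1 : Pl → ℝ≥0∞) x = 1)]
          simp
      _ ≤ N x := ENNReal.sum_le_tsum V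
  have hn0 : ENNReal.ofReal n ≠ 0 := by
    rw [Ne, ENNReal.ofReal_eq_zero, not_le]
    exact hn
  calc volume {x : Pl | ∃ V : Finset ι, (∀ i ∈ V, x ∈ B i) ∧ n ≤ (V.card : ℝ)}
      ≤ volume {x | ENNReal.ofReal n ≤ N x} := measure_mono hsub
    _ ≤ (∫⁻ x, N x) / ENNReal.ofReal n :=
        meas_ge_le_lintegral_div hmeas.aemeasurable hn0 ENNReal.ofReal_ne_top
    _ = ENNReal.ofReal (1 / n) * ∑' i : ι, volume (B i) := by
        rw [hint, ENNReal.div_eq_inv_mul, one_div, ENNReal.ofReal_inv_of_pos hn]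

end Pool.Agent.Helper29.ES
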